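import Pool.Agent.Helper83.QM.Defs
import Pool.Agent.Helper29.QU.Map

/-!
# QM, Q1: lines in a fixed direction meeting an isotropic quadric
-/

set_option autoImplicit false

namespace Pool.Agent.Helper98.QM

open Matrix MvPolynomial Pool.Agent.Helper49.QU Pool.Agent.Helper83.QM

section Lin

variable {L : Type*} [Field L] {N : ℕ}

theorem bil_add_left (B : Matrix (Fin N) (Fin N) L) (u v w : Fin N → L) :
    bil B (u + v) w = bil B u w + bil B v w := by
  simp only [bil_eq, map_add, LinearMap.add_apply]

theorem bil_add_right (B : Matrix (Fin N) (Fin N) L) (u v w : Fin N → L) :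
    bil B u (v + w) = bil B u v + bil B u w := by
  simp only [bil_eq, map_add]

theorem bil_smul_left (B : Matrix (Fin N) (Fin N) L) (c : L) (u v : Fin N → L) :
    bil B (c • u) v = c * bil B u v := by
  simp only [bil_eq, map_smul, LinearMap.smul_apply, smul_eq_mul]

theorem bil_smul_right (B : Matrix (Fin N) (Fin N) L) (c : L) (u v : Fin N → L) :
    bil B u (c • v) = c * bil B u v := by
  simp only [bil_eq, map_smul, smul_eq_mul]

theorem bil_single (B : Matrix (Fin N) (Fin N) L) (j k : Fin N) :
    bil B (Pi.single j 1) (Pi.single k 1) = B j k := by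
  rw [bil_eq, Matrix.toBilin'_single]

/-- a sum of two matrices of rank one has no nonzero `3 × 3` minor -/
theorem not_rk3 {B : Matrix (Fin N) (Fin N) L} (x y z w : Fin N → L)
    (h : ∀ j k, B j k = x j * y k + z j * w k) (f g : Fin 3 → Fin N) :
    (B.submatrix f g).det = 0 := by
  rw [Matrix.det_fin_three]
  simp only [Matrix.submatrix_apply, h]
  ring

/-- polarisation -/
theorem polar {B : Matrix (Fin N) (Fin N) L} (hB : B.IsSymm) (c0 : Fin N → L) (κ : L)
    (lam : (Fin N → L) →ₗ[L] L) [CharZero L]
    (h : ∀ u, bil B (κ • u + lam u • c0) (κ • u + lam u • c0) = 0) (u v : Fin N → L) :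
    κ ^ 2 * bil B u v + κ * lam u * bil B c0 v + κ * lam v * bil B u c0 +
      lam u * lam v * bil B c0 c0 = 0 := by
  have h1 := h (u + v)
  have h2 := h u
  have h3 := h v
  have h4 : κ • (u + v) + lam (u + v) • c0 = (κ • u + lam u • c0) + (κ • v + lam v • c0) := by
    rw [map_add, smul_add, add_smul]
    abel
  rw [h4] at h1
  have h5 : bil B (κ • u + lam u • c0) (κ • v + lam v • c0) = 0 := by
    generalize κ • u + lam u • c0 = x at h1 h2 ⊢
    generalize κ • v + lam v • c0 = y at h1 h3 ⊢
    rw [bil_add_left, bil_add_right, bil_add_right, h2, h3, bil_comm hB y x] at h1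
    have : (2 : L) * bil B x y = 0 := by
      linear_combination h1
    exact (mul_eq_zero.1 this).resolve_left two_ne_zero
  simp only [bil_add_left, bil_add_right, bil_smul_left, bil_smul_right] at h5
  linear_combination h5

end Lin

/-- **Q1b.** -/
theorem disc_ne {L : Type} [Field L] [CharZero L] {N : ℕ} (B : Matrix (Fin N) (Fin N) L)
    (hB : B.IsSymm) (hr : Rk3 B) (c0 : Fin N → L) (hc : bil B c0 c0 ≠ 0) :
    ∃ u : Fin N → L, bil B u c0 ^ 2 - bil B c0 c0 * bil B u u ≠ 0 := by
  by_contra hcon
  push Not at hcon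
  have h1 : ∀ u v, bil B c0 c0 * bil B u v = bil B u c0 * bil B v c0 := by
    intro u v
    have e1 := hcon (u + v)
    have e2 := hcon u
    have e3 := hcon v
    rw [bil_add_left, bil_add_left, bil_add_right, bil_add_right, bil_comm hB v u] at e1
    have : (2 : L) * (bil B c0 c0 * bil B u v - bil B u c0 * bil B v c0) = 0 := by
      linear_combination e2 + e3 - e1
    exact sub_eq_zero.1 ((mul_eq_zero.1 this).resolve_left two_ne_zero)
  obtain ⟨f, g, hfg⟩ := hr
  refine hfg (not_rk3 (fun j => bil B (Pi.single j 1) c0)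
    (fun k => (bil B c0 c0)⁻¹ * bil B (Pi.single k 1) c0) (fun _ => 0) (fun _ => 0) ?_ f g)
  intro j k
  have h2 := h1 (Pi.single j 1) (Pi.single k 1)
  rw [bil_single] at h2
  rw [zero_mul, add_zero]
  field_simp
  linear_combination h2

/-- the exceptional form is not zero -/
theorem exists_E {L : Type} [Field L] [CharZero L] {N : ℕ} (B : Matrix (Fin N) (Fin N) L)
    (hB : B.IsSymm) (hr : Rk3 B) (e w0 : Fin N → L) (hw0 : bil B e w0 ≠ 0) (c0 : Fin N → L)
    (hc : bil B c0 c0 ≠ 0) :
    ∃ u : Fin N → L, bil B (bil B e c0 • u + (-bil B e u) • c0)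
      (bil B e c0 • u + (-bil B e u) • c0) ≠ 0 := by
  by_contra hcon
  push Not at hcon
  by_cases hk : bil B e c0 = 0
  · have h1 := hcon w0
    rw [hk, zero_smul, zero_add, bil_smul_left, bil_smul_right] at h1
    have h2 := (mul_eq_zero.1 h1).resolve_left (neg_ne_zero.2 hw0)
    exact hc ((mul_eq_zero.1 h2).resolve_left (neg_ne_zero.2 hw0))
  · have h1 := polar hB c0 (bil B e c0) (-(Matrix.toBilin' B e)) (fun u => by
      have h2 := hcon u
      have h3 : (-(Matrix.toBilin' B e)) u = -bil B e u := by
        rw [LinearMap.neg_apply, bil_eq]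
      rw [h3]
      exact h2)
    obtain ⟨f, g, hfg⟩ := hr
    refine hfg (not_rk3 (fun j => bil B e (Pi.single j 1))
      (fun k => (bil B e c0)⁻¹ * bil B c0 (Pi.single k 1) -
        (bil B e c0)⁻¹ ^ 2 * bil B c0 c0 * bil B e (Pi.single k 1))
      (fun j => (bil B e c0)⁻¹ * bil B (Pi.single j 1) c0)
      (fun k => bil B e (Pi.single k 1)) ?_ f g)
    intro j k
    have h2 := h1 (Pi.single j 1) (Pi.single k 1)
    rw [bil_single, LinearMap.neg_apply, LinearMap.neg_apply, ← bil_eq, ← bil_eq] at h2
    field_simp
    linear_combination h2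

/-- **Q1.** -/
theorem dense_iso {L : Type} [Field L] [CharZero L] {N : ℕ} (B : Matrix (Fin N) (Fin N) L)
    (hB : B.IsSymm) (hr : Rk3 B) (hi : Iso B) (c0 : Fin N → L) (hc : bil B c0 c0 ≠ 0)
    (G : MvPolynomial (Fin N) L) (hG : G ≠ 0) :
    ∃ (u : Fin N → L) (z : L), eval u G ≠ 0 ∧ bil B (u + z • c0) (u + z • c0) = 0 := by
  classical
  obtain ⟨e, he, w0, hw0⟩ := hi
  -- a point with `G ≠ 0` and `E ≠ 0`
  obtain ⟨u, hu1, hu2⟩ : ∃ u : Fin N → L, eval u G ≠ 0 ∧
      bil B (bil B e c0 • u + (-bil B e u) • c0) (bil B e c0 • u + (-bil B e u) • c0) ≠ 0 := by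
    obtain ⟨v, hv⟩ := exists_E B hB hr e w0 hw0 c0 hc
    let y : Fin N → MvPolynomial (Fin N) L := fun j =>
      C (bil B e c0) * X j - (∑ a, ∑ b, C (e a * B a b) * X b) * C (c0 j)
    let EP : MvPolynomial (Fin N) L := ∑ j, ∑ k, y j * C (B j k) * y k
    have hy : ∀ (u : Fin N → L) (j : Fin N), eval u (y j) =
        (bil B e c0 • u + (-bil B e u) • c0) j := by
      intro u j
      simp only [y, map_sub, map_mul, eval_C, eval_X, map_sum, Pi.add_apply, Pi.smul_apply,
        smul_eq_mul, bil]
      ring
    have hEP : ∀ u : Fin N → L, eval u EP =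
        bil B (bil B e c0 • u + (-bil B e u) • c0) (bil B e c0 • u + (-bil B e u) • c0) := by
      intro u
      simp only [EP, map_sum, map_mul, eval_C, hy]
      rfl
    have hEP0 : EP ≠ 0 := by
      intro h
      apply hv
      rw [← hEP, h, map_zero]
    have h1 : G * EP ≠ 0 := mul_ne_zero hG hEP0
    by_contra hcon
    push Not at hcon
    apply h1
    apply MvPolynomial.funext
    intro u
    rw [map_mul, map_zero]
    by_cases h2 : eval u G = 0
    · rw [h2, zero_mul]
    · rw [hEP, hcon u h2, mul_zero]
  -- the polynomial map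
  let W : Fin N → MvPolynomial (Option (Fin N)) L := fun j => X (some j)
  let U : Fin N → MvPolynomial (Option (Fin N)) L := fun j =>
    (∑ a, ∑ b, W a * C (B a b) * W b) * C (e j) -
      C 2 * (∑ a, ∑ b, C (e a) * C (B a b) * W b) * W j - X none * C (c0 j)
  let P : MvPolynomial (Option (Fin N)) L := aeval U G
  let Ω := AlgebraicClosure L
  have hinj : Function.Injective (algebraMap L Ω) := (algebraMap L Ω).injective
  have hUΩ : ∀ (w : Fin N → Ω) (z : Ω) (j : Fin N),
      aeval (fun o : Option (Fin N) => o.elim z w) (U j) =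
        bil (B.map (algebraMap L Ω)) w w * algebraMap L Ω (e j) -
        2 * bil (B.map (algebraMap L Ω)) (fun i => algebraMap L Ω (e i)) w * w j -
        z * algebraMap L Ω (c0 j) := by
    intro w z j
    simp only [U, W, map_sub, map_mul, map_sum, aeval_X, aeval_C, Option.elim, bil,
      Matrix.map_apply, map_ofNat]
  have hUL : ∀ (w : Fin N → L) (z : L) (j : Fin N),
      eval (fun o : Option (Fin N) => o.elim z w) (U j) =
        bil B w w * e j - 2 * bil B e w * w j - z * c0 j := by
    intro w z j
    simp only [U, W, map_sub, map_mul, map_sum, eval_X, eval_C, Option.elim, bil]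
  have hP : P ≠ 0 := by
    set q := fun x y : Fin N → Ω => bil (B.map (algebraMap L Ω)) x y with hq
    set u' : Fin N → Ω := fun j => algebraMap L Ω (u j) with hu'
    set c' : Fin N → Ω := fun j => algebraMap L Ω (c0 j) with hc'
    set e' : Fin N → Ω := fun j => algebraMap L Ω (e j) with he'
    have hBs : (B.map (algebraMap L Ω)).IsSymm := hB.map _
    have m1 : ∀ x y : Fin N → L, q (fun j => algebraMap L Ω (x j)) (fun j => algebraMap L Ω (y j)) =
        algebraMap L Ω (bil B x y) := fun x y => Pool.Agent.Helper29.QU.bil_map _ B x y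
    have hc1 : q c' c' ≠ 0 := by
      rw [hc', m1]
      exact fun h => hc (hinj (by rw [h, map_zero]))
    have he1 : q e' e' = 0 := by
      rw [he', m1, he, map_zero]
    -- a root
    obtain ⟨z, hz⟩ : ∃ z : Ω, q (u' + z • c') (u' + z • c') = 0 := by
      obtain ⟨s, hs⟩ := IsAlgClosed.exists_eq_mul_self (q u' c' ^ 2 - q c' c' * q u' u')
      refine ⟨(s - q u' c') / q c' c', ?_⟩
      have e1 : q (u' + ((s - q u' c') / q c' c') • c') (u' + ((s - q u' c') / q c' c') • c') =
          q u' u' + 2 * ((s - q u' c') / q c' c') * q u' c' +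
            ((s - q u' c') / q c' c') ^ 2 * q c' c' := by
        simp only [hq, bil_add_left, bil_add_right, bil_smul_left, bil_smul_right]
        rw [bil_comm hBs c' u']
        ring
      rw [e1]
      obtain ⟨t, ht⟩ : ∃ t, t = (s - q u' c') / q c' c' := ⟨_, rfl⟩
      have ht2 : t * q c' c' = s - q u' c' := by rw [ht, div_mul_cancel₀ _ hc1]
      rw [← ht]
      apply (mul_eq_zero.1 _).resolve_left hc1
      linear_combination (2 * q u' c' + t * q c' c' + (s - q u' c')) * ht2 - hs
    have hne : q e' (u' + z • c') ≠ 0 := by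
      intro h
      have e1 : q e' u' + z * q e' c' = 0 := by
        rw [← h]
        simp only [hq, bil_add_right, bil_smul_right]
      apply hu2
      apply hinj
      rw [map_zero, ← m1]
      have e2 : (fun j => algebraMap L Ω ((bil B e c0 • u + (-bil B e u) • c0) j)) =
          q e' c' • (u' + z • c') := by
        funext j
        simp only [Pi.add_apply, Pi.smul_apply, smul_eq_mul, map_add, map_mul, map_neg, he', hc',
          hu', m1]
        rw [he', hu', hc', m1, m1] at e1
        linear_combination -(algebraMap L Ω (c0 j)) * e1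
      rw [e2]
      simp only [hq, bil_smul_left, bil_smul_right]
      rw [show bil (B.map (algebraMap L Ω)) (u' + z • c') (u' + z • c') = 0 from hz, mul_zero,
        mul_zero]
    obtain ⟨s, hs⟩ := IsAlgClosed.exists_eq_mul_self (-(2 * q e' (u' + z • c'))⁻¹)
    intro hP0
    apply hu1
    apply hinj
    rw [map_zero]
    have e3 : aeval (fun o : Option (Fin N) => o.elim z (s • (u' + z • c'))) P = 0 := by
      rw [hP0, map_zero]
    have e4 : aeval (fun o : Option (Fin N) => o.elim z (s • (u' + z • c'))) P =
        aeval (fun j => aeval (fun o : Option (Fin N) => o.elim z (s • (u' + z • c'))) (U j)) G :=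
      MvPolynomial.comp_aeval_apply U _ G
    rw [e4] at e3
    have e5 : (fun j => aeval (fun o : Option (Fin N) => o.elim z (s • (u' + z • c'))) (U j)) =
        u' := by
      funext j
      rw [hUΩ]
      have e6 : bil (B.map (algebraMap L Ω)) (s • (u' + z • c')) (s • (u' + z • c')) = 0 := by
        rw [bil_smul_left, bil_smul_right]
        rw [show bil (B.map (algebraMap L Ω)) (u' + z • c') (u' + z • c') = 0 from hz, mul_zero,
          mul_zero]
      have e7 : bil (B.map (algebraMap L Ω)) e' (s • (u' + z • c')) =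
          s * q e' (u' + z • c') := by
        rw [bil_smul_right]
      rw [e6, e7]
      simp only [Pi.smul_apply, Pi.add_apply, smul_eq_mul, hc', hu']
      have e8 : s * s * (2 * q e' (u' + z • c')) = -1 := by
        rw [← hs, neg_mul, inv_mul_cancel₀ (mul_ne_zero two_ne_zero hne)]
      linear_combination -(algebraMap L Ω (u j) + z * algebraMap L Ω (c0 j)) * e8
    rw [e5] at e3
    rw [← e3, ← MvPolynomial.coe_aeval_eq_eval]
    exact (MvPolynomial.aeval_algebraMap_apply Ω u G).symm
  obtain ⟨x, hx⟩ : ∃ x : Option (Fin N) → L, eval x P ≠ 0 := by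
    by_contra hcon
    push Not at hcon
    exact hP (MvPolynomial.funext fun x => by rw [hcon, map_zero])
  refine ⟨fun j => eval x (U j), x none, ?_, ?_⟩
  · have : eval x P = eval (fun j => eval x (U j)) G := by
      rw [← MvPolynomial.coe_aeval_eq_eval, ← MvPolynomial.coe_aeval_eq_eval]
      exact MvPolynomial.comp_aeval_apply U (aeval x) G
    rwa [this] at hx
  · have hxe : x = fun o : Option (Fin N) => o.elim (x none) (fun j => x (some j)) := by
      funext o
      cases o <;> rfl
    have h1 : (fun j => eval x (U j)) + x none • c0 =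
        bil B (fun j => x (some j)) (fun j => x (some j)) • e +
          (-(2 * bil B e (fun j => x (some j)))) • (fun j => x (some j)) := by
      funext j
      rw [Pi.add_apply]
      have h2 : eval x (U j) = bil B (fun j => x (some j)) (fun j => x (some j)) * e j -
          2 * bil B e (fun j => x (some j)) * x (some j) - x none * c0 j := by
        conv_lhs => rw [hxe]
        exact hUL (fun j => x (some j)) (x none) j
      rw [h2]
      simp only [Pi.smul_apply, Pi.add_apply, smul_eq_mul]
      ring
    rw [h1]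
    simp only [bil_add_left, bil_add_right, bil_smul_left, bil_smul_right, he]
    rw [bil_comm hB (fun j => x (some j)) e]
    ring

end Pool.Agent.Helper98.QM
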